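import Pool.Agent.H93.HQ.Targets

set_option autoImplicit false

namespace Pool.Agent.H58.HQ.PL

open MeasureTheory Set Filter Topology Pool.Agent.H80.HS Pool.Agent.H93.HQ
open scoped ContDiff ENNReal Pointwise

/-- the Euclidean norm of the plane `V n × V n` -/
noncomputable def gg {n : ℕ} (z : V n × V n) : ℝ := Real.sqrt (‖z.1‖ ^ 2 + ‖z.2‖ ^ 2)

theorem gg_cont {n : ℕ} : Continuous (gg : V n × V n → ℝ) := by
  unfold gg
  fun_prop

theorem gg_smul {n : ℕ} {r : ℝ} (hr : 0 ≤ r) (z : V n × V n) : gg (r • z) = r * gg z := by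
  unfold gg
  rw [Prod.smul_fst, Prod.smul_snd, norm_smul, norm_smul, mul_pow, mul_pow, ← mul_add,
    Real.sqrt_mul (by positivity), Real.norm_eq_abs, sq_abs, Real.sqrt_sq hr]

theorem norm_le_gg {n : ℕ} (z : V n × V n) : ‖z‖ ≤ gg z := by
  have h1 : (0 : ℝ) ≤ ‖z.1‖ ^ 2 := by positivity
  have h2 : (0 : ℝ) ≤ ‖z.2‖ ^ 2 := by positivity
  rw [Prod.norm_def]
  refine max_le ?_ ?_
  · exact Real.le_sqrt_of_sq_le (by linarith)
  · exact Real.le_sqrt_of_sq_le (by linarith)

theorem lint_gauss (n : ℕ) : ∫⁻ x : V n, ENNReal.ofReal (Real.exp (-‖x‖ ^ 2)) =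
    ENNReal.ofReal (Real.pi ^ ((n : ℝ) / 2)) := by
  have h := GaussianFourier.integral_rexp_neg_mul_sq_norm (V := V n) (b := 1) one_pos
  simp only [neg_mul, one_mul, div_one, finrank_euclideanSpace, Fintype.card_fin] at h
  have hpos : 0 < Real.pi ^ ((n : ℝ) / 2) := Real.rpow_pos_of_pos Real.pi_pos _
  have hint : Integrable (fun x : V n => Real.exp (-‖x‖ ^ 2)) := by
    by_contra hcon
    rw [integral_undef hcon] at h
    exact hpos.ne h
  rw [← ofReal_integral_eq_lintegral_ofReal hint (ae_of_all _ fun x => (Real.exp_pos _).le), h]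

theorem lint_rad (n : ℕ) (hn : 1 ≤ n) :
    ∫⁻ r in Ioi (0 : ℝ), ENNReal.ofReal (Real.exp (-r ^ 2)) *
      ENNReal.ofReal (r ^ (2 * (n : ℝ) - 1)) = ENNReal.ofReal (Real.Gamma n / 2) := by
  have hn' : (1 : ℝ) ≤ n := by exact_mod_cast hn
  have h := integral_rpow_mul_exp_neg_rpow (p := 2) (q := 2 * (n : ℝ) - 1) (by norm_num)
    (by linarith)
  have e : (2 * (n : ℝ) - 1 + 1) / 2 = n := by ring
  rw [e] at h
  have hpos : 0 < (1 / 2 : ℝ) * Real.Gamma n :=
    mul_pos (by norm_num) (Real.Gamma_pos_of_pos (by linarith))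
  have hint : IntegrableOn (fun x : ℝ => x ^ (2 * (n : ℝ) - 1) * Real.exp (-x ^ (2 : ℝ)))
      (Ioi 0) := by
    by_contra hcon
    rw [integral_undef hcon] at h
    exact hpos.ne h
  have h2 := ofReal_integral_eq_lintegral_ofReal hint (by
    refine (ae_restrict_iff' measurableSet_Ioi).2 (ae_of_all _ fun x hx => ?_)
    exact mul_nonneg (Real.rpow_nonneg (le_of_lt hx) _) (Real.exp_pos _).le)
  rw [h] at h2
  rw [show Real.Gamma n / 2 = 1 / 2 * Real.Gamma n by ring, h2]
  refine setLIntegral_congr_fun measurableSet_Ioi fun r hr => ?_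
  show ENNReal.ofReal (Real.exp (-r ^ 2)) * ENNReal.ofReal (r ^ (2 * (n : ℝ) - 1)) =
    ENNReal.ofReal (r ^ (2 * (n : ℝ) - 1) * Real.exp (-r ^ (2 : ℝ)))
  rw [ENNReal.ofReal_mul (Real.rpow_nonneg (le_of_lt hr) _), mul_comm, Real.rpow_two]

theorem pf_PL (h : U_RAD) : U_PL := by
  intro n hn f hf
  have hn' : (1 : ℝ) ≤ n := by exact_mod_cast hn
  have i1 : Nonempty (Fin n) := ⟨⟨0, by omega⟩⟩
  have i2 : (volume : Measure (V n × V n)).IsAddHaarMeasure :=
    inferInstanceAs ((volume : Measure (V n)).prod (volume : Measure (V n))).IsAddHaarMeasure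
  set S : ℝ≥0∞ := volume {z : V n × V n | gg z < 1} with hS
  have hSfin : S ≠ ⊤ := by
    refine ne_top_of_le_ne_top (measure_ball_lt_top (x := (0 : V n × V n)) (r := 1)).ne
      (measure_mono ?_)
    intro z hz
    rw [mem_ball_zero_iff]
    exact (norm_le_gg z).trans_lt hz
  have hae : ∀ᵐ z : V n × V n, 0 < gg z := by
    have h0 : ∀ᵐ z : V n × V n, z ≠ 0 := by
      have i3 : Nontrivial (V n) := inferInstance
      have i4 : (𝓝[≠] (0 : V n × V n)).NeBot := Module.punctured_nhds_neBot ℝ (V n × V n) 0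
      have i5 : NullSingletonClass (volume : Measure (V n × V n)) :=
        Measure.IsAddHaarMeasure.nullSingletonClass _
      rw [ae_iff]
      simp only [ne_eq, not_not]
      exact measure_singleton _
    filter_upwards [h0] with z hz
    exact (norm_pos_iff.2 hz).trans_le (norm_le_gg z)
  have hvol : ∀ r : ℝ, 0 < r → ∫⁻ x in {x : V n × V n | gg x < r}, (1 : ℝ≥0∞) =
      S * ENNReal.ofReal (r ^ (2 * (n : ℝ))) := by
    intro r hr
    rw [setLIntegral_one]
    have e : {x : V n × V n | gg x < r} = r • {x : V n × V n | gg x < 1} := by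
      ext x
      rw [Set.mem_smul_set_iff_inv_smul_mem₀ hr.ne']
      show gg x < r ↔ gg (r⁻¹ • x) < 1
      rw [gg_smul (inv_nonneg.2 hr.le), inv_mul_lt_iff₀ hr, mul_one]
    rw [e, Measure.addHaar_smul, ← hS, mul_comm]
    congr 2
    rw [Module.finrank_prod, finrank_euclideanSpace, Fintype.card_fin,
      abs_of_pos (pow_pos hr _), ← Real.rpow_natCast]
    congr 1
    push_cast
    ring
  have key := h (V n × V n) volume gg (fun _ => 1) (2 * (n : ℝ)) S gg_cont.measurable
    measurable_const (by linarith) hSfin hae hvol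
  -- the constant
  have hconst : S * ENNReal.ofReal (2 * (n : ℝ)) =
      ENNReal.ofReal (2 * Real.pi ^ n / Real.Gamma n) := by
    have k1 := key (fun r => ENNReal.ofReal (Real.exp (-r ^ 2))) (by fun_prop)
    rw [lint_rad n hn] at k1
    have k2 : ∫⁻ x : V n × V n, 1 * ENNReal.ofReal (Real.exp (-gg x ^ 2)) =
        ENNReal.ofReal (Real.pi ^ n) := by
      have e1 : ∀ x : V n × V n, 1 * ENNReal.ofReal (Real.exp (-gg x ^ 2)) =
          ENNReal.ofReal (Real.exp (-‖x.1‖ ^ 2)) * ENNReal.ofReal (Real.exp (-‖x.2‖ ^ 2)) := by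
        intro x
        rw [one_mul, ← ENNReal.ofReal_mul (Real.exp_pos _).le, ← Real.exp_add]
        congr 2
        unfold gg
        rw [Real.sq_sqrt (by positivity)]
        ring
      rw [lintegral_congr e1]
      have e2 := lintegral_prod_mul (μ := (volume : Measure (V n)))
        (ν := (volume : Measure (V n)))
        (f := fun x : V n => ENNReal.ofReal (Real.exp (-‖x‖ ^ 2)))
        (g := fun x : V n => ENNReal.ofReal (Real.exp (-‖x‖ ^ 2)))
        (by fun_prop) (by fun_prop)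
      rw [lint_gauss n] at e2
      refine Eq.trans e2 ?_
      rw [← ENNReal.ofReal_mul (Real.rpow_nonneg Real.pi_pos.le _),
        ← Real.rpow_add Real.pi_pos, add_halves, Real.rpow_natCast]
    rw [k2] at k1
    have hG : 0 < Real.Gamma n := Real.Gamma_pos_of_pos (by linarith)
    have hc0 : ENNReal.ofReal (Real.Gamma n / 2) ≠ 0 := by
      rw [Ne, ENNReal.ofReal_eq_zero, not_le]
      positivity
    refine (ENNReal.mul_left_inj hc0 ENNReal.ofReal_ne_top).1 ?_
    rw [← k1, ← ENNReal.ofReal_mul (by positivity)]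
    congr 1
    field_simp
  have k3 := key f hf
  rw [hconst] at k3
  simp only [one_mul] at k3
  exact k3

end Pool.Agent.H58.HQ.PL
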